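import Pool.Agent.Lib.MP_dbd176_an.PartA
import Pool.Agent.Lib.MP_dbd176_an.PartB

namespace Pool.Agent.Results.MP_dbd176_an.Full

open Pool.Agent.Lib.MP_dbd176_an

theorem result :
    (∀ f : ℂ → ℂ, IsTEF f → ConnOrUnc (escaping f)) ∧
    (∃ f : ℂ → ℂ, IsTEF f ∧ ∀ R : ℝ, Rf f < R →
      (fastEsc f R).Nonempty ∧ ¬ IsPreconnected (fastEsc f R) ∧
        Countable (ConnectedComponents (fastEsc f R))) ∧
    (∀ f : ℂ → ℂ, IsTEF f → ∀ R : ℝ, Rf f < R → ConnOrUnc (levelSet f R)) :=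
  ⟨fun _ hf => partA hf, partB, fun _ hf _ hR => partC hf (hf.big_of_lt hR)⟩

end Pool.Agent.Results.MP_dbd176_an.Full
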